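import Pool.Agent.U115.WN.Stm

/-!
# Project WN, package QDQ: many nondegenerate quadratic forms with small coefficients
-/

set_option autoImplicit false

open scoped Classical
open Matrix

namespace Pool.Agent.U399.WN

open Pool.Agent.U115.WN

theorem t_QDQ : S_QDQ := by
  intro k hk
  have hk' : (0 : ℝ) < k := by exact_mod_cast hk
  refine ⟨(1 / (4 * k)) ^ Fintype.card {p : Fin k × Fin k // p.1 ≤ p.2}, by positivity,
    fun q hq => ?_⟩
  obtain ⟨m, hm⟩ : ∃ m : ℕ, m = q / (4 * k) := ⟨_, rfl⟩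
  obtain ⟨s, hs⟩ : ∃ s : ℕ, s = (q + 1) / 2 := ⟨_, rfl⟩
  have hmq : 4 * k * m ≤ q := by rw [hm]; exact Nat.mul_div_le q (4 * k)
  have hmq' : q < 4 * k * (m + 1) := by
    rw [hm]
    exact Nat.lt_mul_div_succ q (by omega)
  let F : Finset ({p : Fin k × Fin k // p.1 ≤ p.2} → ℤ) := Fintype.piFinset fun α =>
    if α.1.1 = α.1.2 then Finset.Icc (s : ℤ) q else Finset.Icc (-(m : ℤ)) m
  have hF : ∀ c ∈ F, (∀ i, (s : ℤ) ≤ c ⟨(i, i), le_refl i⟩ ∧ c ⟨(i, i), le_refl i⟩ ≤ q) ∧
      ∀ α : {p : Fin k × Fin k // p.1 ≤ p.2}, α.1.1 ≠ α.1.2 → |c α| ≤ m := by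
    intro c hc
    have hc' := Fintype.mem_piFinset.mp hc
    constructor
    · intro i
      have h := hc' ⟨(i, i), le_refl i⟩
      rw [if_pos rfl, Finset.mem_Icc] at h
      exact h
    · intro α hα
      have h := hc' α
      rw [if_neg hα, Finset.mem_Icc] at h
      exact abs_le.mpr h
  have hfin : {c : {p : Fin k × Fin k // p.1 ≤ p.2} → ℤ |
      (uppM c + (uppM c)ᵀ).det ≠ 0 ∧ ∀ α, |c α| ≤ q}.Finite := by
    refine Set.Finite.subset (Finset.finite_toSet (Fintype.piFinset fun _ :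
      {p : Fin k × Fin k // p.1 ≤ p.2} => Finset.Icc (-(q : ℤ)) q)) fun c hc => ?_
    rw [Finset.mem_coe, Fintype.mem_piFinset]
    intro α
    rw [Finset.mem_Icc]
    exact abs_le.mp (hc.2 α)
  have hsub : (F : Set ({p : Fin k × Fin k // p.1 ≤ p.2} → ℤ)) ⊆
      {c : {p : Fin k × Fin k // p.1 ≤ p.2} → ℤ |
      (uppM c + (uppM c)ᵀ).det ≠ 0 ∧ ∀ α, |c α| ≤ q} := by
    intro c hc
    obtain ⟨h1, h2⟩ := hF c (Finset.mem_coe.mp hc)
    have hmle : (m : ℤ) ≤ q := by
      have : m ≤ 4 * k * m := Nat.le_mul_of_pos_left m (by omega)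
      exact_mod_cast this.trans hmq
    refine ⟨?_, fun α => ?_⟩
    · have hoff : ∀ i j : Fin k, i ≠ j → |(uppM c + (uppM c)ᵀ) i j| ≤ m := by
        intro i j hij
        rw [Matrix.add_apply, Matrix.transpose_apply, uppM, Matrix.of_apply, Matrix.of_apply]
        rcases lt_or_gt_of_ne hij with h | h
        · rw [dif_pos h.le, dif_neg (not_le.mpr h), add_zero]
          exact h2 _ hij
        · rw [dif_neg (not_le.mpr h), dif_pos h.le, zero_add]
          exact h2 _ hij.symm
      have hdiag : ∀ i : Fin k, (q : ℤ) ≤ (uppM c + (uppM c)ᵀ) i i := by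
        intro i
        rw [Matrix.add_apply, Matrix.transpose_apply, uppM, Matrix.of_apply, dif_pos (le_refl i)]
        have := (h1 i).1
        omega
      have hdet : ((uppM c + (uppM c)ᵀ).map (Int.cast : ℤ → ℝ)).det ≠ 0 := by
        refine det_ne_zero_of_sum_row_lt_diag fun i => ?_
        have e1 : ∑ j ∈ Finset.univ.erase i, ‖(uppM c + (uppM c)ᵀ).map (Int.cast : ℤ → ℝ) i j‖ ≤
            (k : ℝ) * m := by
          refine (Finset.sum_le_card_nsmul _ _ (m : ℝ) fun j hj => ?_).trans ?_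
          · rw [Matrix.map_apply, Real.norm_eq_abs]
            exact_mod_cast hoff i j (Finset.ne_of_mem_erase hj).symm
          · rw [nsmul_eq_mul]
            refine mul_le_mul_of_nonneg_right ?_ (Nat.cast_nonneg m)
            have := Finset.card_le_univ (Finset.univ.erase i)
            rw [Fintype.card_fin] at this
            exact_mod_cast this
        have e2 : (q : ℝ) ≤ ‖(uppM c + (uppM c)ᵀ).map (Int.cast : ℤ → ℝ) i i‖ := by
          rw [Matrix.map_apply, Real.norm_eq_abs]
          refine le_trans ?_ (le_abs_self _)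
          exact_mod_cast hdiag i
        have e3 : (4 * k * m : ℝ) ≤ q := by exact_mod_cast hmq
        have e4 : (1 : ℝ) ≤ q := by exact_mod_cast hq
        have e5 : (0 : ℝ) ≤ (k : ℝ) * m := by positivity
        linarith
      intro h0
      apply hdet
      have : ((uppM c + (uppM c)ᵀ).map (Int.cast : ℤ → ℝ)).det =
          ((uppM c + (uppM c)ᵀ).det : ℝ) := by
        have := (Int.castRingHom ℝ).map_det (uppM c + (uppM c)ᵀ)
        rw [RingHom.mapMatrix_apply] at this
        exact this.symm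
      rw [this, h0, Int.cast_zero]
    · by_cases hα : α.1.1 = α.1.2
      · obtain ⟨⟨i, j⟩, hij⟩ := α
        simp only at hα
        subst hα
        have := h1 i
        rw [abs_of_nonneg (by omega)]
        exact this.2
      · exact (h2 α hα).trans hmle
  have hcard : (1 / (4 * (k : ℝ)) * q) ^ Fintype.card {p : Fin k × Fin k // p.1 ≤ p.2} ≤
      (F.card : ℝ) := by
    rw [Fintype.card_piFinset]
    push_cast
    rw [← Finset.card_univ, ← Finset.prod_const]
    refine Finset.prod_le_prod (fun _ _ => by positivity) fun α _ => ?_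
    have hq0 : (0 : ℝ) ≤ q := Nat.cast_nonneg q
    split_ifs with hα
    · rw [Int.card_Icc]
      have e1 : (q : ℤ) ≤ 2 * (((q : ℤ) + 1 - s).toNat : ℤ) := by
        rw [Int.toNat_of_nonneg (by omega)]
        omega
      have e2 : (q : ℝ) ≤ 2 * (((q : ℤ) + 1 - s).toNat : ℝ) := by exact_mod_cast e1
      have e3 : 1 / (4 * (k : ℝ)) ≤ 1 / 2 := by
        apply one_div_le_one_div_of_le (by norm_num)
        have : (1 : ℝ) ≤ k := by exact_mod_cast hk
        linarith
      nlinarith
    · rw [Int.card_Icc]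
      have e1 : (((m : ℤ) + 1 - -(m : ℤ)).toNat : ℤ) = 2 * m + 1 := by
        rw [Int.toNat_of_nonneg (by omega)]
        ring
      have e2 : (((m : ℤ) + 1 - -(m : ℤ)).toNat : ℝ) = 2 * m + 1 := by exact_mod_cast e1
      rw [e2, one_div_mul_eq_div, div_le_iff₀ (by positivity)]
      have e3 : (q : ℝ) < 4 * k * (m + 1) := by exact_mod_cast hmq'
      have e4 : (0 : ℝ) ≤ (k : ℝ) * m := by positivity
      nlinarith
  have hle : (F.card : ℝ) ≤ ({c : {p : Fin k × Fin k // p.1 ≤ p.2} → ℤ |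
      (uppM c + (uppM c)ᵀ).det ≠ 0 ∧ ∀ α, |c α| ≤ q}.ncard : ℝ) := by
    rw [← Set.ncard_coe_finset F]
    exact_mod_cast Set.ncard_le_ncard hsub hfin
  rw [← mul_pow]
  exact hcard.trans hle

end Pool.Agent.U399.WN
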